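import Pool.Agent.helper35.MR.SpecB

/-! # Project mr, module POS: comparisons of the positions -/

set_option autoImplicit false

open Finset

namespace Pool.Agent.helper35.MR

open Finset Pool.Agent.RRank

theorem POS : POS_stmt := by
  intro l i j
  have hi := i.2
  have hj := j.2
  refine ⟨?_, ?_, ?_, ?_⟩
  · split_ifs with h
    · rw [cmp_eq_lt_iff, Fin.lt_def]
      rw [Fin.le_def] at h
      show 2 * i.1 < 2 * j.1 + 1
      omega
    · rw [cmp_eq_gt_iff, Fin.lt_def]
      rw [Fin.le_def] at h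
      show 2 * j.1 + 1 < 2 * i.1
      omega
  · split_ifs with h
    · rw [cmp_eq_lt_iff, Fin.lt_def]
      rw [Fin.lt_def] at h
      show 2 * i.1 + 1 < 2 * j.1
      omega
    · rw [cmp_eq_gt_iff, Fin.lt_def]
      rw [Fin.lt_def] at h
      show 2 * j.1 < 2 * i.1 + 1
      omega
  · rcases lt_trichotomy i j with h | h | h
    · rw [(cmp_eq_lt_iff i j).mpr h, cmp_eq_lt_iff]
      exact h
    · rw [h, cmp_self_eq_eq, cmp_self_eq_eq]
    · rw [(cmp_eq_gt_iff i j).mpr h, cmp_eq_gt_iff]
      exact h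
  · have hD : (pD j).1 = if j.1 + 1 = l then l else j.1 := rfl
    have hC : (pC i).1 = i.1 := rfl
    split_ifs with h h1
    · rw [cmp_eq_lt_iff, Fin.lt_def, hD, hC, if_pos h1]
      exact hi
    · rw [cmp_eq_eq_iff, Fin.ext_iff, hD, hC, if_neg h1, h]
    · rcases lt_trichotomy i j with h2 | h2 | h2
      · rw [(cmp_eq_lt_iff i j).mpr h2, cmp_eq_lt_iff, Fin.lt_def, hD, hC]
        rw [Fin.lt_def] at h2
        split_ifs <;> omega
      · exact absurd h2 h
      · rw [(cmp_eq_gt_iff i j).mpr h2, cmp_eq_gt_iff, Fin.lt_def, hD, hC]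
        rw [Fin.lt_def] at h2
        rw [if_neg (by omega)]
        exact h2

end Pool.Agent.helper35.MR

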