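import Pool.Agent.helper35.MR.SpecB

/-! # Project mr, module WB -/

set_option autoImplicit false

open Finset

namespace Pool.Agent.helper35.MR

open Finset Pool.Agent.RRank

theorem WB (hWBF : WBF_stmt) (hDT : DT_stmt) (hPOS : POS_stmt) : WB_stmt := by
  intro K _ F hD hE l hl
  have core : ∀ y : Fin l → Fin (2 * l),
      (Matrix.of fun i j : Fin l => F (cmp (pC i) (y j)) .lt - F (cmp (pC i) (y j)) .gt).det ≠ 0 →
      GoodF F l := by
    intro y hdet
    obtain ⟨h1, h2⟩ := hWBF K l hl
      (fun i j => F (cmp (pC i) (y j)) .lt - F (cmp (pC i) (y j)) .gt)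
      (fun i j => F (cmp (pC i) (y j)) .gt) hdet
    by_cases h : ∃ i j, F (cmp (pC i) (y j)) .lt - F (cmp (pC i) (y j)) .gt +
        F (cmp (pC i) (y j)) .gt ≠ 0
    · refine ⟨pC, y, pA, pB, ?_⟩
      have e : (fun i j k m : Fin l => F (cmp (pC i) (y j)) (cmp (pA k) (pB m))) =
          fun i j k m => (F (cmp (pC i) (y j)) .lt - F (cmp (pC i) (y j)) .gt) *
            (if k ≤ m then 1 else 0) + F (cmp (pC i) (y j)) .gt := by
        funext i j k m
        rw [(hPOS l k m).1]
        split_ifs <;> simp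
      rw [e]
      exact h1 h
    · push Not at h
      obtain ⟨i, j, hij⟩ : ∃ i j, F (cmp (pC i) (y j)) .lt - F (cmp (pC i) (y j)) .gt ≠ 0 := by
        by_contra h3
        push Not at h3
        exact hdet (Matrix.det_eq_zero_of_row_eq_zero ⟨0, by omega⟩ (fun j => h3 _ j))
      refine ⟨pC, y, pB, pA, ?_⟩
      have e : (fun i j k m : Fin l => F (cmp (pC i) (y j)) (cmp (pB k) (pA m))) =
          fun i j k m => (F (cmp (pC i) (y j)) .lt - F (cmp (pC i) (y j)) .gt) *
            (if k < m then 1 else 0) + F (cmp (pC i) (y j)) .gt := by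
        funext i j k m
        rw [(hPOS l k m).2.1]
        split_ifs <;> simp
      rw [e]
      refine h2 ⟨i, j, fun h4 => hij ?_⟩
      have h5 := h i j
      have h6 : F (cmp (pC i) (y j)) .gt = 0 := h4
      linear_combination h5 - h6
  have hlt : F .lt .lt - F .lt .gt = F .gt .lt - F .gt .gt := by
    linear_combination hD
  by_cases hd : F .gt .lt - F .gt .gt = 0
  · apply core pC
    have hX : (Matrix.of fun i j : Fin l => F (cmp (pC i) (pC j)) .lt -
        F (cmp (pC i) (pC j)) .gt) =
        Matrix.diagonal fun _ : Fin l => F .eq .lt - F .eq .gt := by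
      ext i j
      rw [Matrix.of_apply, (hPOS l i j).2.2.1]
      rcases lt_trichotomy i j with h | h | h
      · rw [Matrix.diagonal_apply_ne _ h.ne, cmp_eq_lt_iff _ _ |>.mpr h, hlt, hd]
      · rw [h, Matrix.diagonal_apply_eq, cmp_self_eq_eq]
      · rw [Matrix.diagonal_apply_ne _ h.ne', cmp_eq_gt_iff _ _ |>.mpr h, hd]
    rw [hX, Matrix.det_diagonal, Finset.prod_const]
    apply pow_ne_zero
    intro h
    apply hE
    linear_combination h - hd
  · apply core pD
    have hX : (Matrix.of fun i j : Fin l => F (cmp (pC i) (pD j)) .lt -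
        F (cmp (pC i) (pD j)) .gt) =
        Matrix.of fun i j : Fin l => (if i = j ∧ i.1 + 1 ≠ l then
          (F .eq .lt - F .eq .gt) - (F .gt .lt - F .gt .gt) else 0) +
          (F .gt .lt - F .gt .gt) := by
      ext i j
      rw [Matrix.of_apply, Matrix.of_apply, (hPOS l i j).2.2.2]
      rcases lt_trichotomy i j with h | h | h
      · rw [if_neg h.ne, if_neg (fun h1 => h.ne h1.1), cmp_eq_lt_iff _ _ |>.mpr h, hlt, zero_add]
      · rw [if_pos h]
        subst h
        by_cases h1 : i.1 + 1 = l
        · rw [if_pos h1, if_neg (fun h2 => h2.2 h1), hlt, zero_add]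
        · rw [if_neg h1, if_pos ⟨rfl, h1⟩]
          ring
      · rw [if_neg h.ne', if_neg (fun h1 => h.ne' h1.1), cmp_eq_gt_iff _ _ |>.mpr h, zero_add]
    rw [hX]
    refine (hDT K l (by omega)).2.2.1 _ _ ?_ hd
    intro h
    apply hE
    linear_combination h

end Pool.Agent.helper35.MR

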