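import Pool.Agent.helper35.MR.SpecB

/-! # Project mr, module RED: removal of one member of a family -/

set_option autoImplicit false

open Finset

namespace Pool.Agent.helper35.MR

open Finset Pool.Agent.RRank

theorem RED : RED_stmt := by
  intro K X Y Z W _ a b R t A B c hc hLR
  obtain ⟨f, g, hfg'⟩ := hLR
  have hfg : ∀ x y, ∑ p, c p * A p x y = ∑ n, f n x * g n y := hfg'
  obtain ⟨p₀, hp₀⟩ : ∃ p, c p ≠ 0 := by
    by_contra h
    push Not at h
    exact hc (funext h)
  refine ⟨fun i q => t (p₀.succAbove i) q - (c p₀)⁻¹ * c (p₀.succAbove i) * t p₀ q,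
    fun i => A (p₀.succAbove i), f, fun n y z w => ∑ q, t p₀ q * (c p₀)⁻¹ * g n y * B q z w, ?_⟩
  intro x y z w
  have h1 : A p₀ x y = (c p₀)⁻¹ * (∑ n, f n x * g n y -
      ∑ i, c (p₀.succAbove i) * A (p₀.succAbove i) x y) := by
    rw [← hfg x y, Fin.sum_univ_succAbove _ p₀, add_sub_cancel_right, ← mul_assoc,
      inv_mul_cancel₀ hp₀, one_mul]
  have h2 : ∑ n, f n x * ∑ q, t p₀ q * (c p₀)⁻¹ * g n y * B q z w =
      ∑ q, t p₀ q * ((c p₀)⁻¹ * (∑ n, f n x * g n y) * B q z w) := by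
    simp only [Finset.mul_sum, Finset.sum_mul]
    rw [Finset.sum_comm]
    refine Finset.sum_congr rfl fun q _ => Finset.sum_congr rfl fun n _ => ?_
    ring
  have h3 : ∑ i, ∑ q, (c p₀)⁻¹ * c (p₀.succAbove i) * t p₀ q *
      (A (p₀.succAbove i) x y * B q z w) =
      ∑ q, t p₀ q * ((c p₀)⁻¹ * (∑ i, c (p₀.succAbove i) * A (p₀.succAbove i) x y) * B q z w) := by
    simp only [Finset.mul_sum, Finset.sum_mul]
    rw [Finset.sum_comm]
    refine Finset.sum_congr rfl fun q _ => Finset.sum_congr rfl fun n _ => ?_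
    ring
  unfold pr
  rw [Fin.sum_univ_succAbove _ p₀, h2]
  simp only [sub_mul, Finset.sum_sub_distrib]
  rw [h3, h1]
  simp only [mul_sub, sub_mul, Finset.sum_sub_distrib]
  ring

end Pool.Agent.helper35.MR

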